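import Mathlib

namespace Pool.Agent.Results.MP_4e1dcd_co.Three

open MeasureTheory ProbabilityTheory Set

def ph (a b c : Fin 12) : Bool :=
  Nat.testBit 6501075761670816151071649291593953765440137763360886367865061061730926954543589501367782091523337157635154333824333109593935546357801279996731358167295641580590985137258632304958757778823400927599190294474648244386619165769471077908042140529023963965484480491587099936675015167160196850503098613795647241490052415591746402401504935448077623896921043648411304517356682855314431415736646939704059934110972773351693965135526125848320587184056061909585244608181952000157391299241012510936466117594502629710273384196288153314 (144 * a.val + 12 * b.val + c.val)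

def T : Finset (Fin 12 × Fin 12 × Fin 12 × Fin 12) :=
  Finset.univ.filter fun t => ph t.1 t.2.1 t.2.2.1 = true ∧ ph t.2.1 t.2.2.1 t.2.2.2 = false

lemma cardT : T.card = 7867 := by
  have : ∑ a : Fin 12, ∑ b : Fin 12, ∑ c : Fin 12, ∑ d : Fin 12,
      (if ph a b c = true ∧ ph b c d = false then 1 else 0) = 7867 := by decide +kernel
  rw [← this, T, Finset.card_filter]
  simp only [Fintype.sum_prod_type]

def E {n : ℕ} (S : Finset (Fin n)) : Set (Fin n → Fin 12) :=
  {x | ∀ i ∈ S, ∀ j ∈ S, ∀ k ∈ S, i < j → j < k → ph (x i) (x j) (x k) = true}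

lemma memE {n : ℕ} {i j k : Fin n} (h1 : i < j) (h2 : j < k) (x : Fin n → Fin 12) :
    x ∈ E {i, j, k} ↔ ph (x i) (x j) (x k) = true := by
  constructor
  · exact fun h => h i (by simp) j (by simp) k (by simp) h1 h2
  · intro h a ha b hb c hc hab hbc
    simp only [Finset.mem_insert, Finset.mem_singleton] at ha hb hc
    rcases ha with rfl | rfl | rfl <;> rcases hb with rfl | rfl | rfl <;>
      rcases hc with rfl | rfl | rfl <;> first | exact h | (exfalso; omega)

theorem result (n : ℕ) : ∃ (Ω : Type) (_ : MeasurableSpace Ω) (μ : Measure Ω)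
    (_ : IsProbabilityMeasure μ) (E : Finset (Fin n) → Set Ω), (∀ S, MeasurableSet (E S)) ∧
      ∀ i₁ i₂ i₃ i₄ : Fin n, i₁ < i₂ → i₂ < i₃ → i₃ < i₄ →
        (7867 / 20736 : ℝ) ≤ μ.real (E {i₁, i₂, i₃} ∩ (E {i₂, i₃, i₄})ᶜ) := by
  let ν : Measure (Fin 12) := uniformOn univ
  have hν : ∀ a, ν {a} = 12⁻¹ := fun a => by
    simp [ν, uniformOn_univ]
  refine ⟨Fin n → Fin 12, inferInstance, Measure.pi fun _ => ν, inferInstance, E,
    fun S => MeasurableSet.of_discrete, fun i j k l h1 h2 h3 => ?_⟩
  let g : (Fin n → Fin 12) → Fin 12 × Fin 12 × Fin 12 × Fin 12 := fun x => (x i, x j, x k, x l)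
  have e : E {i, j, k} ∩ (E {j, k, l})ᶜ = g ⁻¹' (T : Set _) := by
    ext x
    simp [memE h1 h2, memE h2 h3, T, g]
  have one : ∀ t, Measure.pi (fun _ : Fin n => ν) (g ⁻¹' {t}) = 12⁻¹ * (12⁻¹ * (12⁻¹ * 12⁻¹)) := by
    rintro ⟨a, b, c, d⟩
    have hi : iIndepFun (fun (u : Fin n) (x : Fin n → Fin 12) => x u)
        (Measure.pi fun _ : Fin n => ν) := iIndepFun_pi (X := fun _ => id) fun _ => aemeasurable_id
    let v : Fin n → Fin 12 := fun u => if u = i then a else if u = j then b else if u = k then c else d
    have := hi.meas_biInter (S := {i, j, k, l}) (s := fun u => (fun x => x u) ⁻¹' {v u})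
      fun u _ => ⟨{v u}, MeasurableSet.of_discrete, rfl⟩
    have m : ∀ u, Measure.pi (fun _ : Fin n => ν) ((fun x => x u) ⁻¹' {v u}) = 12⁻¹ := fun u => by
      rw [(measurePreserving_eval (fun _ : Fin n => ν) u).measure_preimage
        MeasurableSet.of_discrete.nullMeasurableSet, hν]
    have n1 := h1.ne'
    have n2 := h2.ne'
    have n3 := h3.ne'
    have n4 := (h1.trans h2).ne'
    have n5 := (h2.trans h3).ne'
    have n6 := ((h1.trans h2).trans h3).ne'
    simp only [m] at this
    rw [Finset.prod_insert (by simp [n1.symm, n4.symm, n6.symm]),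
      Finset.prod_insert (by simp [n2.symm, n5.symm]), Finset.prod_insert (by simp [n3.symm]),
      Finset.prod_singleton] at this
    rw [← this]
    congr 1
    ext x
    simp [g, v, n1, n2, n3, n4, n5, n6]
  rw [e, Measure.real, ← sum_measure_preimage_singleton T fun _ _ => MeasurableSet.of_discrete]
  simp only [one, Finset.sum_const, cardT, nsmul_eq_mul, ENNReal.toReal_mul, ENNReal.toReal_inv]
  norm_num

end Pool.Agent.Results.MP_4e1dcd_co.Three
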